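import Pool.Agent.Helper40.CN.Spec

/-!
# Blueprint CN, part SZ (Schur-Zassenhaus)
-/

set_option autoImplicit false

namespace Pool.Agent.Helper4.CN

open Pool.Agent.Helper40.CN

universe u

theorem lift_mem {G : Type u} [Group G] {k : ℕ} (L : Subgroup G) (l : Fin k → G)
    (hl : ∀ i, l i ∈ L) (w : FreeGroup (Fin k)) : FreeGroup.lift l w ∈ L := by
  have h : (FreeGroup.lift l).range ≤ L := by
    rw [FreeGroup.range_lift_eq_closure]
    rw [Subgroup.closure_le]
    rintro _ ⟨i, rfl⟩
    exact hl i
  exact h ⟨w, rfl⟩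

theorem sz : S_SZ.{u} := by
  intro G _ k w N M _ _ hMN hidx hmarg q a hq hrel hqn v hv hvN
  set π := QuotientGroup.mk' M with hπ
  have hsurj : Function.Surjective π := QuotientGroup.mk'_surjective M
  have hker : π.ker = M := QuotientGroup.ker_mk' M
  have hNn : (N.map π).Normal := Subgroup.Normal.map inferInstance π hsurj
  have hcard : Nat.card (N.map π) = q ^ a := by
    rw [← hrel, ← Subgroup.relIndex_bot_left]
    have := Subgroup.relIndex_ker π (K := N)
    rw [hker] at this
    rw [this, Subgroup.relIndex_bot_left]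
  have hindex : (N.map π).index = N.index := by
    rw [Subgroup.index_map, hker, sup_eq_left.mpr hMN]
    have : π.range = ⊤ := MonoidHom.range_eq_top.mpr hsurj
    rw [this, Subgroup.index_top, mul_one]
  have hcop : Nat.Coprime (Nat.card (N.map π)) (N.map π).index := by
    rw [hcard, hindex]
    exact Nat.Coprime.pow_left a ((Nat.Prime.coprime_iff_not_dvd hq).mpr hqn)
  obtain ⟨H, hH⟩ := Subgroup.exists_right_complement'_of_coprime hcop
  have hH' := hH.symm
  have hle : verbal w G ≤ H.comap π := by
    unfold verbal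
    rw [Subgroup.closure_le]
    rintro _ ⟨g, rfl⟩
    have hdec : ∀ i, ∃ n ∈ N, g i * n⁻¹ ∈ H.comap π := by
      intro i
      have htop : H ⊔ N.map π = ⊤ := hH'.sup_eq_top
      have hmem : π (g i) ∈ H ⊔ N.map π := by rw [htop]; trivial
      rw [Subgroup.mem_sup_of_normal_right] at hmem
      obtain ⟨h, hh, n', hn', he⟩ := hmem
      obtain ⟨n, hn, rfl⟩ := hn'
      refine ⟨n, hn, ?_⟩
      rw [Subgroup.mem_comap, map_mul, map_inv, ← he, mul_inv_cancel_right]
      exact hh
    choose n hn hl using hdec
    have h1 := hmarg (fun i => g i * (n i)⁻¹) n hn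
    simp only [inv_mul_cancel_right] at h1
    change FreeGroup.lift g w ∈ H.comap π
    rw [h1]
    exact lift_mem _ _ hl w
  have hvH : π v ∈ H := hle hv
  have hvN' : π v ∈ N.map π := Subgroup.mem_map_of_mem π hvN
  have hdis := hH.disjoint
  have h1 : π v = 1 := by
    have : π v ∈ N.map π ⊓ H := ⟨hvN', hvH⟩
    rw [hdis.eq_bot] at this
    exact this
  rw [← hker]
  exact h1

end Pool.Agent.Helper4.CN
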